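import Pool.Agent.H577R3.RM.Stmts

set_option autoImplicit false

namespace Pool.Agent.H577R3.RM

/-- the inclusion of the integer vectors in the rational vectors -/
def toQ (n : ℕ) : (Fin n → ℤ) →ₗ[ℤ] (Fin n → ℚ) where
  toFun x := fun i => (x i : ℚ)
  map_add' x y := by ext i; simp
  map_smul' c x := by ext i; simp

lemma toQ_inj (n : ℕ) : LinearMap.ker (toQ n) = ⊥ := by
  rw [LinearMap.ker_eq_bot]
  intro x y h
  ext i
  have := congrFun h i
  simpa [toQ] using this

lemma li_iff {n : ℕ} {ι : Type*} (f : ι → Fin n → ℤ) :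
    LinearIndependent ℤ f ↔ LinearIndependent ℚ (fun i => toQ n (f i)) := by
  rw [← LinearIndependent.iff_fractionRing (R := ℤ) (K := ℚ)]
  exact (LinearMap.linearIndependent_iff (toQ n) (toQ_inj n)).symm

theorem taskEXC : TaskEXC := by
  intro n m v hv
  classical
  rw [li_iff] at hv
  set f : Fin m ⊕ Fin n → (Fin n → ℚ) :=
    Sum.elim (fun j => toQ n (v j)) (fun c => toQ n (Pi.single c 1 : Fin n → ℤ)) with hf
  have hs : LinearIndepOn ℚ f (Set.range Sum.inl) := by
    have h1 : LinearIndependent ℚ (f ∘ Sum.inl) := hv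
    exact (linearIndepOn_range_iff Sum.inl_injective f).2 h1
  obtain ⟨b, -, hsb, hspan, hb⟩ := exists_linearIndepOn_extension hs (Set.subset_univ _)
  obtain ⟨C, hC⟩ : ∃ C : Finset (Fin n), ∀ c, c ∈ C ↔ Sum.inr c ∈ b :=
    ⟨Finset.univ.filter fun c => Sum.inr c ∈ b, fun c => by simp⟩
  set e : Fin m ⊕ {c // c ∈ C} → b := Sum.elim (fun j => ⟨Sum.inl j, hsb ⟨j, rfl⟩⟩)
    (fun c => ⟨Sum.inr c.1, (hC c.1).1 c.2⟩) with he
  have heinj : Function.Injective e := by
    rintro (x | x) (y | y) h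
    · simp only [he, Sum.elim_inl, Subtype.mk.injEq, Sum.inl.injEq] at h; rw [h]
    · simp [he] at h
    · simp [he] at h
    · simp only [he, Sum.elim_inr, Subtype.mk.injEq, Sum.inr.injEq] at h; rw [Subtype.ext h]
  have hesurj : Function.Surjective e := by
    rintro ⟨x | x, hx⟩
    · exact ⟨Sum.inl x, rfl⟩
    · exact ⟨Sum.inr ⟨x, (hC x).2 hx⟩, rfl⟩
  have hli : LinearIndependent ℚ (fun i : Fin m ⊕ {c // c ∈ C} => f (e i).1) := hb.comp e heinj
  have hfun : (fun i : Fin m ⊕ {c // c ∈ C} => f (e i).1) = fun i => toQ n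
      (Sum.elim v (fun c : {c // c ∈ C} => (Pi.single c.1 1 : Fin n → ℤ)) i) := by
    funext i
    rcases i with i | i <;> rfl
  refine ⟨C, ?_, ?_⟩
  · have hrange : Set.range (fun i : Fin m ⊕ {c // c ∈ C} => f (e i).1) = f '' b := by
      ext x
      constructor
      · rintro ⟨i, rfl⟩; exact ⟨_, (e i).2, rfl⟩
      · rintro ⟨y, hy, rfl⟩
        obtain ⟨i, hi⟩ := hesurj ⟨y, hy⟩
        exact ⟨i, by simp only [hi]⟩
    have htop : Submodule.span ℚ (f '' b) = ⊤ := by
      rw [eq_top_iff]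
      have h1 : Set.range (fun c : Fin n => (Pi.single c 1 : Fin n → ℚ)) ⊆
          (Submodule.span ℚ (f '' b) : Set (Fin n → ℚ)) := by
        rintro _ ⟨c, rfl⟩
        refine hspan ⟨Sum.inr c, Set.mem_univ _, ?_⟩
        ext i
        by_cases h : i = c
        · subst h; simp [hf, toQ]
        · simp [hf, toQ, Pi.single_eq_of_ne h]
      have h2 := Submodule.span_mono (R := ℚ) h1
      rw [Submodule.span_eq] at h2
      refine le_trans ?_ h2
      have h3 := (Pi.basisFun ℚ (Fin n)).span_eq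
      have h4 : Set.range (Pi.basisFun ℚ (Fin n)) = Set.range (fun c : Fin n => (Pi.single c 1 : Fin n → ℚ)) := by
        congr 1
        funext c
        exact Pi.basisFun_apply ℚ (Fin n) c
      rw [← h4, h3]
    have h5 := finrank_span_eq_card hli
    rw [hrange, htop, finrank_top, Module.finrank_fin_fun] at h5
    simpa using h5.symm
  · rw [li_iff, ← hfun]
    exact hli

end Pool.Agent.H577R3.RM
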